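import Mathlib
import Pool.Agent.N515.Lind.Sum

/-!
# Lindelöf spaces with all points G-delta of every size below the first inaccessible cardinal

For every cardinal `κ` smaller than all (strongly) inaccessible cardinals there is a first
countable T₁ space `X`, all of whose finite powers are Lindelöf, with `|X| ≥ κ` and
`|X| > 2 ^ ℵ₀`. With `κ = 0` the hypothesis is void, and this is a Lindelöf space with G-delta
points of cardinality greater than the continuum.
-/

set_option autoImplicit false
universe u

namespace Pool.Agent.Results.MP_f6ebb1_gt.LargeLindelof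

theorem result (κ : Cardinal.{u}) (hκ : ∀ θ : Cardinal.{u}, θ.IsInaccessible → κ < θ) :
    ∃ (X : Type u) (_ : TopologicalSpace X),
      LindelofSpace X ∧ (∀ x : X, IsGδ ({x} : Set X)) ∧
      T1Space X ∧ FirstCountableTopology X ∧ (∀ k : ℕ, LindelofSpace (Fin k → X)) ∧
      Cardinal.continuum.{u} < Cardinal.mk X ∧ κ ≤ Cardinal.mk X := by
  obtain ⟨X, tX, h1, h2, h3, h4, h5, h6⟩ := Pool.Agent.N515.Lind.main κ hκ
  exact ⟨X, tX, h3, fun x => IsGδ.singleton x, h1, h2, h4, h5, h6⟩

end Pool.Agent.Results.MP_f6ebb1_gt.LargeLindelof
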